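import Pool.Agent.Q72.MR.D

set_option autoImplicit false

/-! # Renormalizable parameters: exponential flatness for bounded type (estimates) -/

namespace Pool.Agent.Q72.MR

open Filter Topology Set

variable {d : ℕ} {c : ℂ} {C : ℝ} {p q : ℕ → ℕ} {r : ℕ → ℝ} {τ : ℝ}

theorem inv_pow_exp {x : ℝ} (hx : 0 < x) (n : ℕ) : (x ^ n)⁻¹ = Real.exp (-(n * Real.log x)) := by
  rw [Real.exp_neg, ← Real.log_pow, Real.exp_log (by positivity)]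

theorem flat_abs (hd : 2 ≤ d) (h : Chain d c (fun _ => C) p q r) {τ A : ℝ}
    (hτ : ∀ k, (q k : ℝ) ≤ τ * Real.log (q k)) (hA : A = 4 * τ * Real.log (2 * C)) {κ : ℝ}
    (hκ0 : 0 < κ) {V : ℝ → ℝ} {S : ℝ → Set ℝ} {D : ℕ → ℝ} {LP : ℝ → ℝ → Prop}
    (hV : ∀ ρ ρ' : ℝ, ρ ≤ ρ' → V ρ ≤ V ρ') (hS : ∀ ρ ρ' : ℝ, ρ ≤ ρ' → S ρ ⊆ S ρ')
    (hb : ∀ K i : ℕ, 1 ≤ i →
      (∀ x ∈ S (κ / (2 * C) ^ (4 * Sm q K + i)), x ≤ 2 * d / (d : ℝ) ^ (p K * i)) ∧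
      V (κ / (2 * C) ^ (4 * Sm q K + i)) ≤ 4 * Real.pi * d / (d : ℝ) ^ (p K * i) ∧
      ∀ n ≤ p K * i, D n ≤ (2 * C) ^ (4 * Sm q K + i) / κ)
    (hLP : ∀ δ ρ ρ' : ℝ, ρ' ≤ ρ → LP δ ρ → LP δ ρ')
    (hL : ∀ δ ρ : ℝ, 0 < δ → δ ≤ Real.pi → V ρ < δ → LP δ ρ) : ∃ η : ℝ, 0 < η ∧
      (∀ ρ : ℝ, 0 < ρ → ρ < η → V ρ ≤ Real.exp (-(η * ρ ^ (-(1 / A)))) ∧
        ∀ x ∈ S ρ, x ≤ Real.exp (-(η * ρ ^ (-(1 / A))))) ∧
      (∀ n : ℕ, 1 ≤ n → D n ≤ (n : ℝ) ^ A / η) ∧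
      ∀ δ : ℝ, 0 < δ → δ < η → LP δ (η * (Real.log (1 / δ)) ^ (-A)) := by
  have hC2 := (h.lev 0).two_le
  have hτ0 := tau_pos (h.two 0) (hτ 0)
  obtain ⟨L, hL'⟩ : ∃ L, L = 2 * C := ⟨_, rfl⟩
  rw [← hL'] at hb hA
  have hL4 : 4 ≤ L := by linarith
  have hL0 : 0 < L := by linarith
  have hlogL : 0 < Real.log L := Real.log_pos (by linarith)
  have hA0 : 0 < A := by rw [hA]; positivity
  have hdR : (2 : ℝ) ≤ d := by exact_mod_cast hd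
  have hd0 : (0 : ℝ) < d := by linarith
  have hlogd : 0 < Real.log d := Real.log_pos (by linarith)
  have hpi := Real.pi_gt_three
  obtain ⟨η₀, hη₀⟩ : ∃ η₀, η₀ = Real.exp ((Real.log κ - (16 * τ ^ 2 + 1) * Real.log L) / A) :=
    ⟨_, rfl⟩
  have hη₀0 : 0 < η₀ := by rw [hη₀]; exact Real.exp_pos _
  obtain ⟨η₁, hη₁⟩ : ∃ η₁, η₁ = η₀ * Real.log d / 2 := ⟨_, rfl⟩
  have hη₁0 : 0 < η₁ := by rw [hη₁]; positivity
  have hB : 1 < 4 * Real.pi * d := by nlinarith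
  obtain ⟨ρ₀, hρ₀, habs⟩ := absorb hA0 hη₁0 hB
  obtain ⟨ρ₁, hρ₁⟩ : ∃ ρ₁, ρ₁ = min (κ / L) ρ₀ := ⟨_, rfl⟩
  have hρ₁0 : 0 < ρ₁ := by rw [hρ₁]; exact lt_min (by positivity) hρ₀
  -- the scales
  have hmain : ∀ ρ : ℝ, 0 < ρ → ρ < ρ₁ → V ρ ≤ Real.exp (-(η₁ * ρ ^ (-(1 / A)))) ∧
      ∀ x ∈ S ρ, x ≤ Real.exp (-(η₁ * ρ ^ (-(1 / A)))) := by
    intro ρ hρ hρ1
    have h1 : ρ ≤ κ / L := hρ1.le.trans (by rw [hρ₁]; exact min_le_left _ _)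
    have h2 : ρ < ρ₀ := hρ1.trans_le (by rw [hρ₁]; exact min_le_right _ _)
    obtain ⟨k, hk1, hk2⟩ := h.exists_scale (by linarith) hκ0 hρ h1
    have h3 := h.period_ge hτ (by linarith) hκ0 hρ hk2
    rw [← hA, ← hη₀] at h3
    obtain ⟨h4, h5, -⟩ := hb k 1 le_rfl
    have h6 := habs ρ hρ h2
    have h7 : 4 * Real.pi * d / (d : ℝ) ^ (p k * 1) ≤
        4 * Real.pi * d * Real.exp (-(2 * η₁ * ρ ^ (-(1 / A)))) := by
      rw [mul_one, div_eq_mul_inv, inv_pow_exp hd0]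
      apply mul_le_mul_of_nonneg_left _ (by positivity)
      apply Real.exp_le_exp.2
      rw [neg_le_neg_iff, hη₁]
      calc 2 * (η₀ * Real.log d / 2) * ρ ^ (-(1 / A)) = (η₀ * ρ ^ (-(1 / A))) * Real.log d := by
            ring
        _ ≤ p k * Real.log d := by gcongr
    refine ⟨(hV _ _ hk1).trans (h5.trans (h7.trans h6)), ?_⟩
    intro x hx
    refine (h4 x (hS _ _ hk1 hx)).trans (le_trans ?_ (h7.trans h6))
    gcongr ?_ / _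
    nlinarith
  -- the derivatives
  obtain ⟨B, hB'⟩ : ∃ B : ℝ, B = p 0 + 4 * τ ^ 2 := ⟨_, rfl⟩
  have hp0 : (1 : ℝ) ≤ p 0 := by exact_mod_cast h.pos
  have hB0 : 0 < B := by rw [hB']; positivity
  obtain ⟨η₃, hη₃⟩ : ∃ η₃, η₃ = κ / (L * B ^ A) := ⟨_, rfl⟩
  have hη₃0 : 0 < η₃ := by rw [hη₃]; positivity
  have hder : ∀ n : ℕ, 1 ≤ n → D n ≤ (n : ℝ) ^ A / η₃ := by
    intro n hn
    obtain ⟨K, hK1, hK2⟩ := h.exists_level (b := 4 * τ ^ 2)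
      (fun k => q_le (h.two k) (hτ k)) hn
    rw [← hB'] at hK2
    have h1 := (hb K 1 le_rfl).2.2 n (by omega)
    refine h1.trans ?_
    have hn0 : (0 : ℝ) < n := by exact_mod_cast hn
    have hpK : (0 : ℝ) < p K := by exact_mod_cast h.one_le K
    have h2 : L ^ (4 * Sm q K + 1) ≤ L * (B * n) ^ A := by
      rw [pow_succ, mul_comm]
      apply mul_le_mul_of_nonneg_left _ hL0.le
      have h3 : (p K : ℝ) ^ A ≤ (B * n) ^ A := Real.rpow_le_rpow hpK.le hK2 hA0.le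
      refine le_trans ?_ h3
      rw [Real.rpow_def_of_pos hpK, ← Real.log_le_iff_le_exp (by positivity), Real.log_pow, hA]
      push_cast
      have h4 := h.sum_le hτ K
      nlinarith
    rw [Real.mul_rpow hB0.le hn0.le] at h2
    rw [hη₃, div_div_eq_mul_div]
    gcongr ?_ / _
    linarith
  -- the loop
  obtain ⟨η₄, hη₄⟩ : ∃ η₄, η₄ = (η₁ / 2) ^ A := ⟨_, rfl⟩
  have hη₄0 : 0 < η₄ := by rw [hη₄]; positivity
  obtain ⟨η₅, hη₅⟩ : ∃ η₅, η₅ = Real.exp (-(η₁ / 2 * ρ₁ ^ (-(1 / A)))) := ⟨_, rfl⟩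
  have hη₅0 : 0 < η₅ := by rw [hη₅]; exact Real.exp_pos _
  have hloop : ∀ δ : ℝ, 0 < δ → δ < 1 → δ < η₅ → LP δ (η₄ * (Real.log (1 / δ)) ^ (-A)) := by
    intro δ hδ0 hδ1 hδ5
    obtain ⟨Λ, hΛ⟩ : ∃ Λ, Λ = Real.log (1 / δ) := ⟨_, rfl⟩
    have hΛδ : δ = Real.exp (-Λ) := by
      rw [hΛ, one_div, Real.log_inv, neg_neg, Real.exp_log hδ0]
    have hΛ0 : 0 < Λ := by
      rw [hΛ]
      apply Real.log_pos
      rw [lt_div_iff₀ hδ0]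
      linarith
    rw [← hΛ]
    obtain ⟨ρ, hρ⟩ : ∃ ρ, ρ = (η₁ / 2 / Λ) ^ A := ⟨_, rfl⟩
    have hρ0 : 0 < ρ := by rw [hρ]; positivity
    have e1 : ρ = η₄ * Λ ^ (-A) := by
      rw [hρ, Real.div_rpow (by positivity) hΛ0.le, hη₄, Real.rpow_neg hΛ0.le, div_eq_mul_inv]
    have e2 : ρ ^ (-(1 / A)) = Λ / (η₁ / 2) := by
      rw [hρ, ← Real.rpow_mul (by positivity), show A * -(1 / A) = -1 by field_simp,
        Real.rpow_neg_one, inv_div]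
    rw [← e1]
    have h1 : ρ < ρ₁ := by
      by_contra hcon
      push Not at hcon
      have h2 : ρ ^ (-(1 / A)) ≤ ρ₁ ^ (-(1 / A)) :=
        Real.rpow_le_rpow_of_nonpos hρ₁0 hcon (by
          rw [neg_nonpos]
          positivity)
      rw [e2, div_le_iff₀ (by positivity)] at h2
      rw [hη₅, hΛδ, Real.exp_lt_exp] at hδ5
      linarith
    apply hL δ ρ hδ0 (by linarith)
    refine ((hmain ρ hρ0 h1).1).trans_lt ?_
    rw [e2, hΛδ, Real.exp_lt_exp]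
    have e3 : η₁ * (Λ / (η₁ / 2)) = 2 * Λ := by field_simp
    rw [e3]
    linarith
  -- the conclusion
  obtain ⟨η, hη⟩ : ∃ η, η = min (min ρ₁ η₁) (min (min η₃ η₄) (min η₅ 1)) := ⟨_, rfl⟩
  have hη0 : 0 < η := by
    rw [hη]
    exact lt_min (lt_min hρ₁0 hη₁0) (lt_min (lt_min hη₃0 hη₄0) (lt_min hη₅0 one_pos))
  have a1 : η ≤ ρ₁ := by rw [hη]; exact (min_le_left _ _).trans (min_le_left _ _)
  have a2 : η ≤ η₁ := by rw [hη]; exact (min_le_left _ _).trans (min_le_right _ _)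
  have a3 : η ≤ η₃ := by
    rw [hη]; exact (min_le_right _ _).trans ((min_le_left _ _).trans (min_le_left _ _))
  have a4 : η ≤ η₄ := by
    rw [hη]; exact (min_le_right _ _).trans ((min_le_left _ _).trans (min_le_right _ _))
  have a5 : η ≤ η₅ := by
    rw [hη]; exact (min_le_right _ _).trans ((min_le_right _ _).trans (min_le_left _ _))
  have a6 : η ≤ 1 := by
    rw [hη]; exact (min_le_right _ _).trans ((min_le_right _ _).trans (min_le_right _ _))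
  refine ⟨η, hη0, ?_, ?_, ?_⟩
  · intro ρ hρ hρη
    obtain ⟨h1, h2⟩ := hmain ρ hρ (hρη.trans_le a1)
    have h3 : Real.exp (-(η₁ * ρ ^ (-(1 / A)))) ≤ Real.exp (-(η * ρ ^ (-(1 / A)))) := by
      apply Real.exp_le_exp.2
      rw [neg_le_neg_iff]
      gcongr
    exact ⟨h1.trans h3, fun x hx => (h2 x hx).trans h3⟩
  · intro n hn
    refine (hder n hn).trans ?_
    gcongr
  · intro δ hδ0 hδη
    refine hLP δ _ _ ?_ (hloop δ hδ0 (hδη.trans_le a6) (hδη.trans_le a5))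
    have h1 : 0 ≤ Real.log (1 / δ) := by
      apply Real.log_nonneg
      rw [le_div_iff₀ hδ0]
      linarith
    gcongr

end Pool.Agent.Q72.MR
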