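import Pool.Agent.Q72.MR.C
import Pool.Agent.Q72.MR.D2

set_option autoImplicit false

/-! # Renormalizable parameters: the final statements -/

namespace Pool.Agent.Q72.MR

open Complex Filter Topology Set Metric MeasureTheory Pool.Agent.H713R2
open N62a1eb23
open Pool.Agent.H712R2 (P P_succ P_one P_zero fc mem_multibrot_iff)
open Pool.Agent.Y736.HD (Ang vol_Ang_ne)

variable {d : ℕ} {c : ℂ} {ψ : ℂ → ℂ}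

theorem Ang_mono {ρ ρ' : ℝ} (h : ρ ≤ ρ') : Ang ψ c ρ ⊆ Ang ψ c ρ' := by
  rintro θ ⟨h1, ζ, h2, h3⟩
  exact ⟨h1, ζ, ball_subset_ball h h2, h3⟩

theorem vol_mono {ρ ρ' : ℝ} (h : ρ ≤ ρ') :
    (volume (Ang ψ c ρ)).toReal ≤ (volume (Ang ψ c ρ')).toReal :=
  ENNReal.toReal_mono (vol_Ang_ne ψ c ρ') (measure_mono (Ang_mono h))

/-- every polynomial-like restriction has some bounds -/
theorem exists_bounds {g : ℂ → ℂ} (hg : Continuous g) {U : Set ℂ} (hUo : IsOpen U)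
    (hUb : Bornology.IsBounded U) (hcl : closure U ⊆ g '' U)
    (hprop : ∀ K ⊆ g '' U, IsCompact K → IsCompact {z | z ∈ U ∧ g z ∈ K}) {x : ℕ → ℂ}
    (hx : ∀ n, x n ∈ U) (hgx : ∀ n, g (x n) = x (n + 1)) :
    ∃ C r : ℝ, 0 < r ∧ (∀ n, ball (x n) r ⊆ U) ∧ ∀ z ∈ U, ∀ z' ∈ U, ‖g z - g z'‖ ≤ C * r := by
  have hK : IsCompact (closure U) := hUb.isCompact_closure
  have hK' := hprop _ hcl hK
  obtain ⟨r, hr, hsub⟩ := hK'.exists_thickening_subset_open hUo (fun z hz => hz.1)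
  obtain ⟨R, hR⟩ := hK.exists_bound_of_continuousOn (f := g) hg.continuousOn
  refine ⟨2 * R / r, r, hr, ?_, ?_⟩
  · intro n
    refine (ball_subset_thickening ?_ r).trans hsub
    refine ⟨hx n, ?_⟩
    rw [hgx]
    exact subset_closure (hx _)
  · intro z hz z' hz'
    rw [div_mul_cancel₀ _ hr.ne']
    have h1 := hR z (subset_closure hz)
    have h2 := hR z' (subset_closure hz')
    have h3 := norm_sub_le (g z) (g z')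
    linarith

/-- the scales -/
noncomputable def scale (C : ℕ → ℝ) (p : ℕ → ℕ) (κ : ℝ) (K i : ℕ) : ℝ :=
  κ / ((∏ j ∈ Finset.range K, (2 * C (j + 1)) ^ (p (j + 1) / p j)) ^ 4 * (2 * C K) ^ i)

theorem chain_of {C : ℕ → ℝ} (hC : Monotone C) {p : ℕ → ℕ} (hp0 : 1 ≤ p 0)
    (hp : ∀ k, p k < p (k + 1) ∧ p k ∣ p (k + 1)) (hlev : ∀ k, ∃ r, Lev d c (C k) (p k) r) :
    ∃ r : ℕ → ℝ, Chain d c C p (fun k => p (k + 1) / p k) r := by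
  choose r hr using hlev
  have hmul : ∀ k, p (k + 1) = p k * (p (k + 1) / p k) := fun k =>
    (Nat.mul_div_cancel' (hp k).2).symm
  refine ⟨r, hp0, hmul, ?_, hC, hr⟩
  intro k
  have h1 := (hp k).1
  have h2 := hmul k
  show 2 ≤ p (k + 1) / p k
  by_contra hcon
  push Not at hcon
  have h3 : p (k + 1) / p k ≤ 1 := by omega
  have h4 : p k * (p (k + 1) / p k) ≤ p k * 1 := Nat.mul_le_mul_left _ h3
  omega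

theorem A_pos {C : ℝ} {p : ℕ → ℕ} (hp0 : 1 ≤ p 0)
    (hp : ∀ k, p k < p (k + 1) ∧ p k ∣ p (k + 1)) (hlev : ∀ k, ∃ r, Lev d c C (p k) r)
    {τ : ℝ} (hτ : ∀ k, (p (k + 1) : ℝ) / p k ≤ τ * Real.log (p (k + 1) / p k)) :
    0 < 4 * τ * Real.log (2 * C) := by
  obtain ⟨r, h⟩ := chain_of (C := fun _ => C) monotone_const hp0 hp hlev
  have hC2 := h.C_le 0
  have hlog : 0 < Real.log (2 * C) := Real.log_pos (by linarith)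
  have hq : ((p (0 + 1) / p 0 : ℕ) : ℝ) = (p (0 + 1) : ℝ) / p 0 := by
    rw [Nat.cast_div (hp 0).2]
    have := h.one_le 0
    exact_mod_cast (by omega : p 0 ≠ 0)
  have h1 := hτ 0
  rw [← hq] at h1
  have hτ0 : 0 < τ := tau_pos (h.two 0) h1
  positivity

/-- **All levels, arbitrary bounds.** -/
theorem main_all (hd : 2 ≤ d) (hψ : IsExteriorMap (multibrotSet d) ψ) (hc : c ∈ multibrotSet d)
    {C : ℕ → ℝ} (hC : Monotone C) {p : ℕ → ℕ} (hp0 : 1 ≤ p 0)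
    (hp : ∀ k, p k < p (k + 1) ∧ p k ∣ p (k + 1)) (hlev : ∀ k, ∃ r, Lev d c (C k) (p k) r) :
    ∃ κ : ℝ, 0 < κ ∧ ∀ K i : ℕ, 1 ≤ i →
      (volume (Ang ψ c (scale C p κ K i))).toReal ≤ 4 * Real.pi * d / (d : ℝ) ^ (i * p K) ∧
      sSup {x | ∃ w : ℂ, 1 < ‖w‖ ∧ ‖ψ w - c‖ ≤ scale C p κ K i ∧ Real.log ‖w‖ = x} ≤
        2 * d / (d : ℝ) ^ (i * p K) ∧
      (∀ n ≤ i * p K, ‖deriv (P d n) c‖ ≤ 1 / scale C p κ K i) ∧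
      ∀ F : ℂ → ℂ, ContinuousOn F {w : ℂ | 1 ≤ ‖w‖} → (∀ w : ℂ, 1 < ‖w‖ → F w = ψ w) →
        ∀ ζ : ℂ, ‖ζ‖ = 1 → F ζ = c → ∀ δ : ℝ, 4 * Real.pi * d / (d : ℝ) ^ (i * p K) < δ →
          δ ≤ Real.pi → ∃ ξ : ℂ, ‖ξ‖ = 1 ∧ ‖ξ - ζ‖ ≤ δ ∧ scale C p κ K i ≤ ‖F ξ - F ζ‖ := by
  obtain ⟨r, h⟩ := chain_of hC hp0 hp hlev
  obtain ⟨κ, hκ0, hκ⟩ := h.bounds hd hψ hc
  refine ⟨κ, hκ0, ?_⟩
  intro K i hi
  obtain ⟨h1, h2, h3⟩ := hκ K i hi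
  rw [Nat.mul_comm (p K)] at h1 h2 h3
  have hpi := Real.pi_pos
  refine ⟨h2, ?_, ?_, ?_⟩
  · apply Real.sSup_le _ (by positivity)
    rintro x ⟨w, hw1, hw2, rfl⟩
    exact h1 w hw1 hw2
  · intro n hn
    refine (h3 n hn).trans (le_of_eq ?_)
    rw [scale, one_div_div]
    rfl
  · intro F hF hE ζ hζ hFζ δ hδ hδπ
    have hδ0 : 0 < δ := lt_of_le_of_lt (by positivity) hδ
    exact loop_of_vol hδ0 hδπ (lt_of_le_of_lt h2 hδ) hF hE hζ hFζ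

/-- **A priori bounds, bounded type**, for all points. -/
theorem main_points (hd : 2 ≤ d) (hψ : IsExteriorMap (multibrotSet d) ψ) (hc : c ∈ multibrotSet d)
    {C : ℝ} {p : ℕ → ℕ} (hp0 : 1 ≤ p 0)
    (hp : ∀ k, p k < p (k + 1) ∧ p k ∣ p (k + 1)) (hlev : ∀ k, ∃ r, Lev d c C (p k) r)
    {τ : ℝ} (hτ : ∀ k, (p (k + 1) : ℝ) / p k ≤ τ * Real.log (p (k + 1) / p k)) :
    ∃ η : ℝ, 0 < η ∧
      (∀ ρ : ℝ, 0 < ρ → ρ < η →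
        (volume (Ang ψ c ρ)).toReal ≤ Real.exp (-(η * ρ ^ (-(1 / (4 * τ * Real.log (2 * C)))))) ∧
        ∀ w : ℂ, 1 < ‖w‖ → ‖ψ w - c‖ ≤ ρ →
          Real.log ‖w‖ ≤ Real.exp (-(η * ρ ^ (-(1 / (4 * τ * Real.log (2 * C))))))) ∧
      (∀ n : ℕ, 1 ≤ n → ‖deriv (P d n) c‖ ≤ (n : ℝ) ^ (4 * τ * Real.log (2 * C)) / η) ∧
      ∀ F : ℂ → ℂ, ContinuousOn F {w : ℂ | 1 ≤ ‖w‖} → (∀ w : ℂ, 1 < ‖w‖ → F w = ψ w) →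
        ∀ ζ : ℂ, ‖ζ‖ = 1 → F ζ = c → ∀ δ : ℝ, 0 < δ → δ < η → ∃ ξ : ℂ, ‖ξ‖ = 1 ∧ ‖ξ - ζ‖ ≤ δ ∧
          η * (Real.log (1 / δ)) ^ (-(4 * τ * Real.log (2 * C))) ≤ ‖F ξ - F ζ‖ := by
  obtain ⟨r, h⟩ := chain_of (C := fun _ => C) monotone_const hp0 hp hlev
  obtain ⟨κ, hκ0, hκ⟩ := h.bounds hd hψ hc
  have hq : ∀ k, ((p (k + 1) / p k : ℕ) : ℝ) = (p (k + 1) : ℝ) / p k := by
    intro k
    rw [Nat.cast_div (hp k).2]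
    have := h.one_le k
    exact_mod_cast (by omega : p k ≠ 0)
  obtain ⟨η, hη0, h1, h2, h3⟩ := flat_abs hd h (τ := τ) (A := 4 * τ * Real.log (2 * C)) (κ := κ)
    (V := fun ρ => (volume (Ang ψ c ρ)).toReal)
    (S := fun ρ => {x | ∃ w : ℂ, 1 < ‖w‖ ∧ ‖ψ w - c‖ ≤ ρ ∧ Real.log ‖w‖ = x})
    (D := fun n => ‖deriv (P d n) c‖)
    (LP := fun δ ρ => ∀ F : ℂ → ℂ, ContinuousOn F {w : ℂ | 1 ≤ ‖w‖} →
      (∀ w : ℂ, 1 < ‖w‖ → F w = ψ w) → ∀ ζ : ℂ, ‖ζ‖ = 1 → F ζ = c →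
        ∃ ξ : ℂ, ‖ξ‖ = 1 ∧ ‖ξ - ζ‖ ≤ δ ∧ ρ ≤ ‖F ξ - F ζ‖)
    (by
      intro k
      show ((p (k + 1) / p k : ℕ) : ℝ) ≤ τ * Real.log ((p (k + 1) / p k : ℕ) : ℝ)
      rw [hq]
      exact hτ k) rfl hκ0
    (fun ρ ρ' h => vol_mono h)
    (fun ρ ρ' h x => by
      rintro ⟨w, h1, h2, h3⟩
      exact ⟨w, h1, h2.trans h, h3⟩)
    (by
      intro K i hi
      obtain ⟨h1, h2, h3⟩ := hκ K i hi
      have e1 : Wt (fun _ => C) (fun k => p (k + 1) / p k) K ^ 4 * (2 * C) ^ i =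
          (2 * C) ^ (4 * Sm (fun k => p (k + 1) / p k) K + i) := by
        rw [Wt_const, ← pow_mul, ← pow_add, Nat.mul_comm]
      rw [e1] at h1 h2 h3
      refine ⟨?_, h2, h3⟩
      rintro x ⟨w, hw1, hw2, rfl⟩
      exact h1 w hw1 hw2)
    (by
      intro δ ρ ρ' hρ hL F hF hE ζ hζ hFζ
      obtain ⟨ξ, h1, h2, h3⟩ := hL F hF hE ζ hζ hFζ
      exact ⟨ξ, h1, h2, hρ.trans h3⟩)
    (fun δ ρ hδ0 hδπ hV F hF hE ζ hζ hFζ => loop_of_vol hδ0 hδπ hV hF hE hζ hFζ)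
  refine ⟨η, hη0, ?_, h2, ?_⟩
  · intro ρ hρ0 hρη
    obtain ⟨h4, h5⟩ := h1 ρ hρ0 hρη
    exact ⟨h4, fun w hw1 hw2 => h5 _ ⟨w, hw1, hw2, rfl⟩⟩
  · intro F hF hE ζ hζ hFζ δ hδ0 hδη
    exact h3 δ hδ0 hδη F hF hE ζ hζ hFζ

/-- **A priori bounds, bounded type.** -/
theorem main_bounded (hd : 2 ≤ d) (hψ : IsExteriorMap (multibrotSet d) ψ) (hc : c ∈ multibrotSet d)
    {C : ℝ} {p : ℕ → ℕ} (hp0 : 1 ≤ p 0)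
    (hp : ∀ k, p k < p (k + 1) ∧ p k ∣ p (k + 1)) (hlev : ∀ k, ∃ r, Lev d c C (p k) r)
    {τ : ℝ} (hτ : ∀ k, (p (k + 1) : ℝ) / p k ≤ τ * Real.log (p (k + 1) / p k)) :
    ∃ η : ℝ, 0 < η ∧
      (∀ ρ : ℝ, 0 < ρ → ρ < η →
        (volume (Ang ψ c ρ)).toReal ≤ Real.exp (-(η * ρ ^ (-(1 / (4 * τ * Real.log (2 * C)))))) ∧
        sSup {x | ∃ w : ℂ, 1 < ‖w‖ ∧ ‖ψ w - c‖ ≤ ρ ∧ Real.log ‖w‖ = x} ≤
          Real.exp (-(η * ρ ^ (-(1 / (4 * τ * Real.log (2 * C))))))) ∧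
      (∀ n : ℕ, 1 ≤ n → ‖deriv (P d n) c‖ ≤ (n : ℝ) ^ (4 * τ * Real.log (2 * C)) / η) ∧
      ∀ F : ℂ → ℂ, ContinuousOn F {w : ℂ | 1 ≤ ‖w‖} → (∀ w : ℂ, 1 < ‖w‖ → F w = ψ w) →
        ∀ ζ : ℂ, ‖ζ‖ = 1 → F ζ = c → ∀ δ : ℝ, 0 < δ → δ < η → ∃ ξ : ℂ, ‖ξ‖ = 1 ∧ ‖ξ - ζ‖ ≤ δ ∧
          η * (Real.log (1 / δ)) ^ (-(4 * τ * Real.log (2 * C))) ≤ ‖F ξ - F ζ‖ := by
  obtain ⟨η, hη0, h1, h2, h3⟩ := main_points hd hψ hc hp0 hp hlev hτ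
  refine ⟨η, hη0, ?_, h2, h3⟩
  intro ρ hρ0 hρη
  obtain ⟨h4, h5⟩ := h1 ρ hρ0 hρη
  refine ⟨h4, Real.sSup_le ?_ (Real.exp_pos _).le⟩
  rintro x ⟨w, hw1, hw2, rfl⟩
  exact h5 w hw1 hw2

end Pool.Agent.Q72.MR
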