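import Pool.Agent.Y736.RN.A
import Pool.Agent.H712R2.MultibrotConnected

set_option autoImplicit false

/-! # Renormalizable parameters: all levels at once (geometry of the levels) -/

namespace Pool.Agent.Q72.MR

open Complex Filter Topology Set Metric
open Pool.Agent.H712R2 (P P_succ P_zero fc)
open Pool.Agent.Y736.RN (diff_it_y)

variable {d : ℕ} {c : ℂ}

/-- bounds at a level: period `p`, size `r` -/
def Lev (d : ℕ) (c : ℂ) (C : ℝ) (p : ℕ) (r : ℝ) : Prop :=
  ∃ U : Set ℂ, closure U ⊆ (fc d c)^[p] '' U ∧ 0 < r ∧ (∀ n : ℕ, ball (P d (n * p) c) r ⊆ U) ∧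
    ∀ z ∈ U, ∀ z' ∈ U, ‖(fc d c)^[p] z - (fc d c)^[p] z'‖ ≤ C * r

theorem Lev.pos {C : ℝ} {p : ℕ} {r : ℝ} (h : Lev d c C p r) : 0 < r := by
  obtain ⟨U, _, h, _⟩ := h
  exact h

theorem Lev.two_le {C : ℝ} {p : ℕ} {r : ℝ} (h : Lev d c C p r) : 2 ≤ C := by
  obtain ⟨U, hU, hr, hb, hC⟩ := h
  have hb0 : ball (0 : ℂ) r ⊆ U := by
    have := hb 0
    rwa [Nat.zero_mul, P_zero] at this
  by_contra hcon
  push Not at hcon
  obtain ⟨t, ht⟩ : ∃ t : ℝ, t = max (C / 2) 0 := ⟨_, rfl⟩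
  have ht0 : 0 ≤ t := by rw [ht]; exact le_max_right _ _
  have ht1 : t < 1 := by rw [ht]; exact max_lt (by linarith) one_pos
  have htC : C / 2 ≤ t := by rw [ht]; exact le_max_left _ _
  obtain ⟨s, hs1, hs2⟩ := exists_between ht1
  have hs0 : 0 < s := lt_of_le_of_lt ht0 hs1
  have hmem : ∀ e : ℂ, ‖e‖ = 1 → e * (s * r : ℝ) ∈ (fc d c)^[p] '' U := by
    intro e he
    apply hU
    apply subset_closure
    apply hb0
    rw [mem_ball_zero_iff, norm_mul, he, one_mul, Complex.norm_real, Real.norm_of_nonneg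
      (by positivity)]
    nlinarith
  obtain ⟨z, hz, hz'⟩ := hmem 1 (by simp)
  obtain ⟨w, hw, hw'⟩ := hmem (-1) (by simp)
  have h1 := hC z hz w hw
  rw [hz', hw'] at h1
  have h2 : ‖(1 : ℂ) * (s * r : ℝ) - -1 * (s * r : ℝ)‖ = 2 * (s * r) := by
    rw [show (1 : ℂ) * (s * r : ℝ) - -1 * (s * r : ℝ) = ((2 * (s * r) : ℝ) : ℂ) by push_cast; ring,
      Complex.norm_real, Real.norm_of_nonneg (by positivity)]
  rw [h2] at h1
  have h3 : 2 * s ≤ C := by
    by_contra h4
    push Not at h4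
    nlinarith
  linarith

/-- Lipschitz on the half ball -/
theorem lip_half {g : ℂ → ℂ} (hg : Differentiable ℂ g) {x : ℂ} {r C : ℝ} (hr : 0 < r)
    (hC : ∀ z ∈ ball x r, ∀ w ∈ ball x r, ‖g z - g w‖ ≤ C * r) {z w : ℂ}
    (hz : ‖z - x‖ ≤ r / 2) (hw : ‖w - x‖ ≤ r / 2) : ‖g z - g w‖ ≤ 2 * C * ‖z - w‖ := by
  have hb : ∀ y ∈ closedBall x (r / 2), ‖deriv g y‖ ≤ 2 * C := by
    intro y hy
    rw [mem_closedBall] at hy
    have hsub : ball y (r / 2) ⊆ ball x r := by
      intro u hu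
      rw [mem_ball] at hu ⊢
      have := dist_triangle u y x
      linarith
    have hyx : y ∈ ball x r := by
      rw [mem_ball]
      linarith
    have h1 : MapsTo g (ball y (r / 2)) (closedBall (g y) (C * r)) := by
      intro u hu
      rw [mem_closedBall, dist_eq_norm]
      exact hC u (hsub hu) y hyx
    have h2 := Complex.norm_deriv_le_div_of_mapsTo_ball hg.differentiableOn h1 (by positivity)
    have h3 : C * r / (r / 2) = 2 * C := by field_simp
    rwa [h3] at h2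
  refine (convex_closedBall x (r / 2)).norm_image_sub_le_of_norm_deriv_le
    (fun y _ => hg y) hb ?_ ?_
  · rwa [mem_closedBall, dist_eq_norm]
  · rwa [mem_closedBall, dist_eq_norm]

theorem Lev.lip {C : ℝ} {p : ℕ} {r : ℝ} (h : Lev d c C p r) (i : ℕ) {z w : ℂ}
    (hz : ‖z - P d (p * i) c‖ ≤ r / 2) (hw : ‖w - P d (p * i) c‖ ≤ r / 2) :
    ‖(fc d c)^[p] z - (fc d c)^[p] w‖ ≤ 2 * C * ‖z - w‖ := by
  obtain ⟨U, hU, hr, hb, hC⟩ := h
  have hbi := hb i
  rw [Nat.mul_comm] at hbi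
  exact lip_half (diff_it_y d p c) hr (fun z hz w hw => hC z (hbi hz) w (hbi hw)) hz hw

theorem deriv_zero (hd : 2 ≤ d) {p : ℕ} (hp : 1 ≤ p) : deriv ((fc d c)^[p]) 0 = 0 := by
  obtain ⟨m, rfl⟩ : ∃ m, p = m + 1 := ⟨p - 1, by omega⟩
  rw [Function.iterate_succ]
  have h1 : HasDerivAt (fc d c) 0 0 := by
    have h2 : HasDerivAt (fun z : ℂ => z ^ d + c) ((d : ℂ) * 0 ^ (d - 1)) 0 :=
      (hasDerivAt_pow d (0 : ℂ)).add_const c
    rw [zero_pow (by omega), mul_zero] at h2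
    exact h2
  have h2 : HasDerivAt ((fc d c)^[m] ∘ fc d c) (deriv ((fc d c)^[m]) (fc d c 0) * 0) 0 :=
    HasDerivAt.comp (0 : ℂ) (diff_it_y d m c (fc d c 0)).hasDerivAt h1
  rw [mul_zero] at h2
  exact h2.deriv

/-- the return map is quadratic near the critical point -/
theorem Lev.quad (hd : 2 ≤ d) {C : ℝ} {p : ℕ} (hp : 1 ≤ p) {r : ℝ} (h : Lev d c C p r) {z : ℂ}
    (hz : ‖z‖ < r) : ‖(fc d c)^[p] z - (fc d c)^[p] 0‖ ≤ C * r * (‖z‖ / r) ^ 2 := by
  obtain ⟨U, hU, hr, hb, hC⟩ := h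
  have hb0 : ball (0 : ℂ) r ⊆ U := by
    have := hb 0
    rwa [Nat.zero_mul, P_zero] at this
  have h1 : MapsTo ((fc d c)^[p]) (ball 0 r) (closedBall ((fc d c)^[p] 0) (C * r)) := by
    intro u hu
    rw [mem_closedBall, dist_eq_norm]
    exact hC u (hb0 hu) 0 (hb0 (mem_ball_self hr))
  have h2 : (fun w => (fc d c)^[p] w - (fc d c)^[p] 0) =o[𝓝 0] fun w : ℂ => ‖w - 0‖ ^ 1 := by
    have h3 := (diff_it_y d p c 0).hasDerivAt
    rw [deriv_zero hd hp, hasDerivAt_iff_isLittleO] at h3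
    simp only [smul_eq_mul, mul_zero, sub_zero] at h3
    simp only [pow_one, sub_zero]
    exact h3.norm_right
  have h3 := Complex.dist_le_mul_div_pow_of_mapsTo_ball_of_isLittleO (n := 1)
    (diff_it_y d p c).differentiableOn h1 h2 (z := z) (by rwa [mem_ball_zero_iff])
  rwa [dist_eq_norm, dist_zero_right] at h3

/-- **The sizes of the levels decrease at most exponentially in the number of steps.** -/
theorem rad_lower (hd : 2 ≤ d) {C : ℝ} {p q : ℕ} (hp : 1 ≤ p) (hq : 1 ≤ q) {r r' : ℝ}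
    (h : Lev d c C p r) (h' : Lev d c C (p * q) r') : r ≤ (2 * C) ^ (q + 3) * r' := by
  have hC2 := h.two_le
  have hr := h.pos
  have hr' := h'.pos
  by_contra hcon
  push Not at hcon
  obtain ⟨L, hL⟩ : ∃ L, L = 2 * C := ⟨_, rfl⟩
  rw [← hL] at hcon
  have hL4 : 4 ≤ L := by linarith
  have hL0 : 0 < L := by linarith
  obtain ⟨U, hU, -, hb, hC⟩ := h'
  have hb0 : ball (0 : ℂ) r' ⊆ U := by
    have := hb 0
    rwa [Nat.zero_mul, P_zero] at this
  have hUim : U ⊆ (fc d c)^[p * q] '' U := subset_closure.trans hU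
  have hsmall : ∀ z ∈ U, ‖z‖ ≤ C * r' := by
    intro z hz
    obtain ⟨u, hu, rfl⟩ := hUim hz
    obtain ⟨u0, hu0, h0⟩ := hUim (hb0 (mem_ball_self hr'))
    have := hC u hu u0 hu0
    rwa [h0, sub_zero] at this
  have hLq : 1 ≤ L ^ q := one_le_pow₀ (by linarith)
  have hpow : L ^ (q + 3) = L ^ q * L ^ 3 := pow_add _ _ _
  -- the size of `U` relative to `r`
  obtain ⟨t, ht⟩ : ∃ t, t = C * r' := ⟨_, rfl⟩
  have ht0 : 0 < t := by rw [ht]; positivity
  have htr : L ^ q * L ^ 2 * t < r / 2 := by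
    have h1 : L ^ q * L ^ 2 * t = L ^ (q + 3) * r' / 2 := by
      rw [ht, hpow]
      have : C = L / 2 := by rw [hL]; ring
      rw [this]
      ring
    rw [h1]
    linarith
  have htr1 : t < r / 2 := by
    have h1 : t ≤ L ^ q * L ^ 2 * t := by
      have h2 : 1 ≤ L ^ q * L ^ 2 := by nlinarith [sq_nonneg L]
      nlinarith
    linarith
  have hiter : ∀ (j : ℕ) (z : ℂ), (fc d c)^[p * j] z = ((fc d c)^[p])^[j] z := by
    intro j z
    rw [Function.iterate_mul]
  -- the iterates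
  have key : ∀ z ∈ U, ∀ j : ℕ, j + 1 ≤ q →
      ‖(fc d c)^[p * (j + 1)] z - P d (p * (j + 1)) c‖ ≤ L ^ j * (C * t ^ 2 / r) := by
    intro z hz j
    have hzt : ‖z‖ ≤ t := by rw [ht]; exact hsmall z hz
    induction j with
    | zero =>
      intro _
      have h1 := h.quad hd hp (z := z) (by linarith)
      simp only [Nat.zero_add, Nat.mul_one, pow_zero, one_mul]
      refine h1.trans ?_
      have h2 : C * r * (‖z‖ / r) ^ 2 = C * ‖z‖ ^ 2 / r := by
        field_simp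
      rw [h2]
      gcongr
    | succ j ih =>
      intro hj
      have h1 := ih (by omega)
      have h2 : L ^ j * (C * t ^ 2 / r) ≤ r / 2 := by
        have h3 : L ^ j ≤ L ^ q := pow_le_pow_right₀ (by linarith) (by omega)
        have h4 : C * t ^ 2 / r ≤ L ^ 2 * t := by
          rw [div_le_iff₀ hr]
          have h5 : C * t ≤ L ^ 2 * r := by
            have h51 : C * t ≤ L * r := by
              have : C = L / 2 := by rw [hL]; ring
              rw [this]
              nlinarith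
            have h52 : L * r ≤ L ^ 2 * r := by
              have : L ≤ L ^ 2 := by nlinarith
              exact mul_le_mul_of_nonneg_right this hr.le
            linarith
          calc C * t ^ 2 = (C * t) * t := by ring
            _ ≤ (L ^ 2 * r) * t := mul_le_mul_of_nonneg_right h5 ht0.le
            _ = L ^ 2 * t * r := by ring
        have h6 : 0 ≤ C * t ^ 2 / r := by positivity
        calc L ^ j * (C * t ^ 2 / r) ≤ L ^ q * (L ^ 2 * t) := by gcongr
          _ = L ^ q * L ^ 2 * t := by ring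
          _ ≤ r / 2 := htr.le
      have h3 := h.lip (j + 1) (h1.trans h2) (w := P d (p * (j + 1)) c)
        (by rw [sub_self, norm_zero]; positivity)
      have h4 : (fc d c)^[p * (j + 1 + 1)] z = (fc d c)^[p] ((fc d c)^[p * (j + 1)] z) := by
        rw [← Function.iterate_add_apply]
        congr 1
        ring
      have h5 : P d (p * (j + 1 + 1)) c = (fc d c)^[p] (P d (p * (j + 1)) c) := by
        show (fc d c)^[p * (j + 1 + 1)] 0 = (fc d c)^[p] ((fc d c)^[p * (j + 1)] 0)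
        rw [← Function.iterate_add_apply]
        congr 1
        ring
      rw [h4, h5]
      refine h3.trans ?_
      rw [← hL, pow_succ]
      calc L * ‖(fc d c)^[p * (j + 1)] z - P d (p * (j + 1)) c‖ ≤ L * (L ^ j * (C * t ^ 2 / r)) := by
            gcongr
        _ = L ^ j * L * (C * t ^ 2 / r) := by ring
  obtain ⟨m, rfl⟩ : ∃ m, q = m + 1 := ⟨q - 1, by omega⟩
  have hmem : ∀ e : ℂ, ‖e‖ = 1 → e * (r' / 2 : ℝ) ∈ (fc d c)^[p * (m + 1)] '' U := by
    intro e he
    apply hUim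
    apply hb0
    rw [mem_ball_zero_iff, norm_mul, he, one_mul, Complex.norm_real, Real.norm_of_nonneg
      (by positivity)]
    linarith
  obtain ⟨z, hz, hz'⟩ := hmem 1 (by simp)
  obtain ⟨w, hw, hw'⟩ := hmem (-1) (by simp)
  have h1 := key z hz m le_rfl
  have h2 := key w hw m le_rfl
  rw [hz'] at h1
  rw [hw'] at h2
  have h3 : r' ≤ 2 * (L ^ m * (C * t ^ 2 / r)) := by
    have h4 := norm_sub_le ((1 : ℂ) * (r' / 2 : ℝ) - P d (p * (m + 1)) c)
      (-1 * (r' / 2 : ℝ) - P d (p * (m + 1)) c)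
    rw [show (1 : ℂ) * (r' / 2 : ℝ) - P d (p * (m + 1)) c -
      (-1 * (r' / 2 : ℝ) - P d (p * (m + 1)) c) = (r' : ℂ) by push_cast; ring,
      Complex.norm_real, Real.norm_of_nonneg hr'.le] at h4
    linarith
  -- contradiction
  have h4 : r' * r ≤ 2 * (L ^ m * (C * t ^ 2)) := by
    have h5 := mul_le_mul_of_nonneg_right h3 hr.le
    have h6 : 2 * (L ^ m * (C * t ^ 2 / r)) * r = 2 * (L ^ m * (C * t ^ 2)) := by
      field_simp
    rwa [h6] at h5
  have h5 : 2 * (L ^ m * (C * t ^ 2)) = L ^ m * L ^ 3 / 4 * r' * r' := by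
    rw [ht]
    have : C = L / 2 := by rw [hL]; ring
    rw [this]
    ring
  rw [h5] at h4
  have h6 : r ≤ L ^ m * L ^ 3 / 4 * r' := by
    by_contra h7
    push Not at h7
    nlinarith
  have h7 : L ^ m * L ^ 3 / 4 * r' ≤ L ^ (m + 1 + 3) * r' := by
    have h8 : L ^ (m + 1 + 3) = L * (L ^ m * L ^ 3) := by ring
    rw [h8]
    have h9 : 0 < L ^ m * L ^ 3 := by positivity
    have h10 : L ^ m * L ^ 3 / 4 ≤ L * (L ^ m * L ^ 3) := by nlinarith
    exact mul_le_mul_of_nonneg_right h10 hr'.le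
  linarith

end Pool.Agent.Q72.MR
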