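import Pool.Agent.Q72.MR.A

set_option autoImplicit false

/-! # Renormalizable parameters: all levels at once (closeness of the orbits) -/

namespace Pool.Agent.Q72.MR

open Complex Filter Topology Set Metric
open Pool.Agent.H712R2 (P P_succ P_zero fc)
open Pool.Agent.Y736.RN (diff_it_y contDiff_it)

variable {d : ℕ} {c : ℂ}

/-- Lipschitz constants of the iterates in both variables -/
theorem lip_base (d : ℕ) (R : ℝ) (N : ℕ) : ∃ M : ℝ, 1 ≤ M ∧ ∀ n ≤ N, ∀ x y : ℂ × ℂ,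
    ‖x‖ ≤ R → ‖y‖ ≤ R → ‖(fc d x.1)^[n] x.2 - (fc d y.1)^[n] y.2‖ ≤ M * ‖x - y‖ := by
  induction N with
  | zero =>
    refine ⟨1, le_rfl, ?_⟩
    intro n hn x y _ _
    obtain rfl : n = 0 := by omega
    simp only [Function.iterate_zero, id, one_mul]
    exact norm_snd_le (x - y)
  | succ N ih =>
    obtain ⟨M, hM, h⟩ := ih
    obtain ⟨F, hF⟩ : ∃ F : ℂ × ℂ → ℂ, F = fun q => (fc d q.1)^[N + 1] q.2 := ⟨_, rfl⟩
    have hFc : ContDiff ℂ ⊤ F := by
      rw [hF]
      exact contDiff_it d (N + 1)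
    have hcomp : IsCompact (closedBall (0 : ℂ × ℂ) R) := isCompact_closedBall _ _
    obtain ⟨K, hK⟩ := hcomp.exists_bound_of_continuousOn
      ((hFc.continuous_fderiv (by simp)).continuousOn (s := closedBall (0 : ℂ × ℂ) R))
    refine ⟨max M K, hM.trans (le_max_left _ _), ?_⟩
    intro n hn x y hx hy
    rcases Nat.lt_or_ge n (N + 1) with h1 | h1
    · refine (h n (by omega) x y hx hy).trans ?_
      exact mul_le_mul_of_nonneg_right (le_max_left _ _) (norm_nonneg _)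
    · obtain rfl : n = N + 1 := by omega
      have h2 := (convex_closedBall (0 : ℂ × ℂ) R).norm_image_sub_le_of_norm_fderiv_le
        (𝕜 := ℂ) (f := F) (C := K) (fun z _ => (hFc.differentiable (by simp)) z) hK
        (x := y) (y := x) (by rwa [mem_closedBall_zero_iff]) (by rwa [mem_closedBall_zero_iff])
      rw [hF] at h2
      refine h2.trans ?_
      exact mul_le_mul_of_nonneg_right (le_max_right _ _) (norm_nonneg _)

/-- closeness of the orbits over one period, near the orbit of the critical point -/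
def Cl (d : ℕ) (c a : ℂ) (p : ℕ) (s δ : ℝ) : Prop :=
  ∀ (i : ℕ) (z : ℂ), ‖z - P d (p * i) c‖ ≤ s →
    ‖(fc d a)^[p] z - (fc d c)^[p] z‖ ≤ δ ∧
      ∀ n < p, ‖(fc d a)^[n] z - P d (p * i + n) c‖ ≤ 1 / 2

/-- the orbits over several periods -/
theorem Cl.iter {C : ℝ} {p : ℕ} {r s δ : ℝ} {a : ℂ} (h : Lev d c C p r) (hs : s ≤ r / 2)
    (hcl : Cl d c a p s δ) {i j : ℕ} {z : ℂ} {t : ℝ} (ht : 0 ≤ t) (hδ : 0 ≤ δ)
    (hz : ‖z - P d (p * i) c‖ ≤ t)
    (hj : (2 * C) ^ j * (t + δ) ≤ s) : ∀ l ≤ j,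
      ‖(fc d c)^[p * l] z - P d (p * (i + l)) c‖ ≤ (2 * C) ^ l * t ∧
      ‖(fc d a)^[p * l] z - (fc d c)^[p * l] z‖ ≤ ((2 * C) ^ l - 1) * δ ∧
      ‖(fc d a)^[p * l] z - P d (p * (i + l)) c‖ ≤ s := by
  have hC2 := h.two_le
  obtain ⟨L, hL⟩ : ∃ L, L = 2 * C := ⟨_, rfl⟩
  rw [← hL] at hj ⊢
  have hL4 : 4 ≤ L := by linarith
  have hpow : ∀ l ≤ j, L ^ l * (t + δ) ≤ s := by
    intro l hl
    refine le_trans ?_ hj
    have : L ^ l ≤ L ^ j := pow_le_pow_right₀ (by linarith) hl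
    exact mul_le_mul_of_nonneg_right this (by linarith)
  have hthird : ∀ l ≤ j, ‖(fc d c)^[p * l] z - P d (p * (i + l)) c‖ ≤ L ^ l * t →
      ‖(fc d a)^[p * l] z - (fc d c)^[p * l] z‖ ≤ (L ^ l - 1) * δ →
      ‖(fc d a)^[p * l] z - P d (p * (i + l)) c‖ ≤ s := by
    intro l hl h1 h2
    have h3 := norm_add_le ((fc d a)^[p * l] z - (fc d c)^[p * l] z)
      ((fc d c)^[p * l] z - P d (p * (i + l)) c)
    rw [sub_add_sub_cancel] at h3
    have h4 := hpow l hl
    nlinarith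
  intro l
  induction l with
  | zero =>
    intro hl
    have h1 : ‖(fc d c)^[p * 0] z - P d (p * (i + 0)) c‖ ≤ L ^ 0 * t := by
      simpa using hz
    have h2 : ‖(fc d a)^[p * 0] z - (fc d c)^[p * 0] z‖ ≤ (L ^ 0 - 1) * δ := by
      simp
    exact ⟨h1, h2, hthird 0 hl h1 h2⟩
  | succ l ih =>
    intro hl
    obtain ⟨h1, h2, h3⟩ := ih (by omega)
    have hita : ∀ b : ℂ, (fc d b)^[p * (l + 1)] z = (fc d b)^[p] ((fc d b)^[p * l] z) := by
      intro b
      rw [← Function.iterate_add_apply]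
      congr 1
      ring
    have hP : P d (p * (i + (l + 1))) c = (fc d c)^[p] (P d (p * (i + l)) c) := by
      show (fc d c)^[p * (i + (l + 1))] 0 = (fc d c)^[p] ((fc d c)^[p * (i + l)] 0)
      rw [← Function.iterate_add_apply]
      congr 1
      ring
    have h4 := hpow l (by omega)
    have hLl : 1 ≤ L ^ l := one_le_pow₀ (by linarith)
    have hcr : ‖(fc d c)^[p * l] z - P d (p * (i + l)) c‖ ≤ r / 2 := by
      have : 0 ≤ L ^ l * δ := by positivity
      nlinarith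
    have har : ‖(fc d a)^[p * l] z - P d (p * (i + l)) c‖ ≤ r / 2 := h3.trans hs
    have h5 : ‖(fc d c)^[p * (l + 1)] z - P d (p * (i + (l + 1))) c‖ ≤ L ^ (l + 1) * t := by
      rw [hita, hP]
      refine (h.lip (i + l) hcr (by
        rw [sub_self, norm_zero]
        have := h.pos
        positivity)).trans ?_
      rw [← hL, pow_succ]
      calc L * ‖(fc d c)^[p * l] z - P d (p * (i + l)) c‖ ≤ L * (L ^ l * t) := by gcongr
        _ = L ^ l * L * t := by ring
    have h6 : ‖(fc d a)^[p * (l + 1)] z - (fc d c)^[p * (l + 1)] z‖ ≤ (L ^ (l + 1) - 1) * δ := by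
      rw [hita, hita]
      have h7 := (hcl (i + l) _ h3).1
      have h8 := h.lip (i + l) har hcr
      rw [← hL] at h8
      have h9 := norm_add_le
        ((fc d a)^[p] ((fc d a)^[p * l] z) - (fc d c)^[p] ((fc d a)^[p * l] z))
        ((fc d c)^[p] ((fc d a)^[p * l] z) - (fc d c)^[p] ((fc d c)^[p * l] z))
      rw [sub_add_sub_cancel] at h9
      have h10 : L * ‖(fc d a)^[p * l] z - (fc d c)^[p * l] z‖ ≤ L * ((L ^ l - 1) * δ) := by
        gcongr
      rw [pow_succ]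
      nlinarith
    exact ⟨h5, h6, hthird (l + 1) hl h5 h6⟩

/-- one level -/
theorem Cl.step {C : ℝ} {p q : ℕ} (hp : 1 ≤ p) {r s δ s' : ℝ} {a : ℂ} (h : Lev d c C p r)
    (hs : s ≤ r / 2) (hcl : Cl d c a p s δ) (hδ : 0 ≤ δ) (hs' : 0 ≤ s')
    (hq : (2 * C) ^ q * (s' + δ) ≤ s) : Cl d c a (p * q) s' ((2 * C) ^ q * δ) := by
  intro i z hz
  rw [Nat.mul_assoc] at hz
  have h1 := hcl.iter h hs hs' hδ hz hq
  refine ⟨?_, ?_⟩
  · refine (h1 q le_rfl).2.1.trans ?_
    nlinarith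
  · intro n hn
    obtain ⟨l, m, hm, rfl⟩ : ∃ l m, m < p ∧ n = p * l + m :=
      ⟨n / p, n % p, Nat.mod_lt _ hp, (Nat.div_add_mod n p).symm⟩
    have hl : l < q := by
      by_contra hcon
      push Not at hcon
      have : p * q ≤ p * l := Nat.mul_le_mul_left p hcon
      omega
    have h2 := (hcl (q * i + l) _ (h1 l hl.le).2.2).2 m hm
    rw [← Function.iterate_add_apply, Nat.add_comm m] at h2
    have h3 : p * q * i + (p * l + m) = p * (q * i + l) + m := by ring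
    rwa [h3]

/-- a chain of levels; the bounds may depend on the level -/
structure Chain (d : ℕ) (c : ℂ) (C : ℕ → ℝ) (p q : ℕ → ℕ) (r : ℕ → ℝ) : Prop where
  pos : 1 ≤ p 0
  mul : ∀ k, p (k + 1) = p k * q k
  two : ∀ k, 2 ≤ q k
  mono : Monotone C
  lev : ∀ k, Lev d c (C k) (p k) (r k)

/-- the sum of the relative periods -/
def Sm (q : ℕ → ℕ) (K : ℕ) : ℕ := ∑ j ∈ Finset.range K, q j

theorem Sm_succ (q : ℕ → ℕ) (K : ℕ) : Sm q (K + 1) = Sm q K + q K := Finset.sum_range_succ _ _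

/-- the weights -/
def Wt (C : ℕ → ℝ) (q : ℕ → ℕ) (K : ℕ) : ℝ := ∏ j ∈ Finset.range K, (2 * C (j + 1)) ^ q j

theorem Wt_succ (C : ℕ → ℝ) (q : ℕ → ℕ) (K : ℕ) :
    Wt C q (K + 1) = Wt C q K * (2 * C (K + 1)) ^ q K := Finset.prod_range_succ _ _

theorem Wt_zero (C : ℕ → ℝ) (q : ℕ → ℕ) : Wt C q 0 = 1 := by simp [Wt]

theorem Wt_const (C : ℝ) (q : ℕ → ℕ) (K : ℕ) : Wt (fun _ => C) q K = (2 * C) ^ Sm q K := by
  rw [Wt, Sm, Finset.prod_pow_eq_pow_sum]

variable {C : ℕ → ℝ} {p q : ℕ → ℕ} {r : ℕ → ℝ}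

theorem Chain.one_le (h : Chain d c C p q r) (k : ℕ) : 1 ≤ p k := by
  induction k with
  | zero => exact h.pos
  | succ k ih =>
    rw [h.mul]
    exact Nat.mul_pos ih (by have := h.two k; omega)

theorem Chain.C_le (h : Chain d c C p q r) (k : ℕ) : 2 ≤ C k := (h.lev k).two_le

theorem Chain.Wt_one (h : Chain d c C p q r) (k : ℕ) : 1 ≤ Wt C q k := by
  induction k with
  | zero => rw [Wt_zero]
  | succ k ih =>
    rw [Wt_succ]
    have h1 : 1 ≤ (2 * C (k + 1)) ^ q k := one_le_pow₀ (by have := h.C_le (k + 1); linarith)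
    nlinarith

theorem Chain.Wt_mono (h : Chain d c C p q r) {k K : ℕ} (hk : k ≤ K) : Wt C q k ≤ Wt C q K := by
  induction K, hk using Nat.le_induction with
  | base => exact le_rfl
  | succ K _ ih =>
    rw [Wt_succ]
    have h1 : 1 ≤ (2 * C (K + 1)) ^ q K := one_le_pow₀ (by have := h.C_le (K + 1); linarith)
    have h2 := h.Wt_one K
    nlinarith

theorem Lev.mono {C C' : ℝ} (hC : C ≤ C') {p : ℕ} {r : ℝ} (h : Lev d c C p r) : Lev d c C' p r := by
  obtain ⟨U, h1, h2, h3, h4⟩ := h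
  exact ⟨U, h1, h2, h3, fun z hz z' hz' => (h4 z hz z' hz').trans
    (mul_le_mul_of_nonneg_right hC h2.le)⟩

/-- the sizes of the levels -/
theorem Chain.size (hd : 2 ≤ d) (h : Chain d c C p q r) {s : ℝ} (hs : s ≤ r 0 / 2) (hs0 : 0 < s)
    (k : ℕ) : s / Wt C q k ^ 3 ≤ r k / 2 := by
  induction k with
  | zero => simpa [Wt_zero] using hs
  | succ k ih =>
    have hC2 := h.C_le (k + 1)
    have hrl := rad_lower hd (h.one_le k) (by have := h.two k; omega : 1 ≤ q k)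
      ((h.lev k).mono (h.mono (Nat.le_succ k))) (by rw [← h.mul]; exact h.lev (k + 1))
    rw [Wt_succ]
    obtain ⟨L, hL⟩ : ∃ L, L = 2 * C (k + 1) := ⟨_, rfl⟩
    rw [← hL] at hrl ⊢
    have hL4 : 4 ≤ L := by linarith
    have hW := h.Wt_one k
    have hW0 : 0 < Wt C q k := by linarith
    rw [mul_pow, ← div_div]
    have hpos : 0 < (L ^ q k) ^ 3 := by positivity
    rw [div_le_iff₀ hpos]
    refine ih.trans ?_
    have h1 : L ^ (q k + 3) ≤ (L ^ q k) ^ 3 := by
      rw [← pow_mul]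
      exact pow_le_pow_right₀ (by linarith) (by have := h.two k; omega)
    have h2 := (h.lev (k + 1)).pos
    nlinarith

/-- closeness at all levels -/
theorem Chain.close (hd : 2 ≤ d) (h : Chain d c C p q r) {s δ : ℝ} (hs : s ≤ r 0 / 2) (hs0 : 0 < s)
    (hδ : 0 ≤ δ) {a : ℂ} (hcl : Cl d c a (p 0) s δ) {K : ℕ}
    (hK : Wt C q K ^ 4 * δ ≤ s / 2) : ∀ k ≤ K,
      Cl d c a (p k) (s / Wt C q k ^ 3) (Wt C q k * δ) := by
  intro k
  induction k with
  | zero =>
    intro _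
    simpa [Wt_zero] using hcl
  | succ k ih =>
    intro hk
    have h1 := ih (by omega)
    have hC2 := h.C_le (k + 1)
    have h2 := h.size hd hs hs0 k
    have hWW : Wt C q (k + 1) ≤ Wt C q K := h.Wt_mono hk
    have hlev := (h.lev k).mono (h.mono (Nat.le_succ k))
    have hW1 := h.Wt_one k
    rw [Wt_succ] at hWW ⊢
    obtain ⟨W, hW⟩ : ∃ W, W = Wt C q k := ⟨_, rfl⟩
    rw [← hW] at h1 h2 hW1 hWW ⊢
    have hW0 : 0 < W := by linarith
    obtain ⟨L, hL⟩ : ∃ L, L = 2 * C (k + 1) := ⟨_, rfl⟩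
    obtain ⟨T, hT⟩ : ∃ T, T = L ^ q k := ⟨_, rfl⟩
    rw [← hL, ← hT] at hWW ⊢
    have hT2 : 4 ≤ T := by
      rw [hT]
      calc (4 : ℝ) ≤ L ^ 1 := by rw [pow_one]; linarith
        _ ≤ L ^ q k := pow_le_pow_right₀ (by linarith) (by have := h.two k; omega)
    have h6 : (W * T) ^ 4 * δ ≤ s / 2 := by
      refine le_trans ?_ hK
      gcongr
    have h3 := h1.step (q := q k) (s' := s / (W * T) ^ 3) (h.one_le k) hlev h2 (by positivity)
      (by positivity) (by
        show (2 * C (k + 1)) ^ q k * (s / (W * T) ^ 3 + W * δ) ≤ s / W ^ 3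
        rw [← hL, ← hT]
        have e3 : T * (s / (W * T) ^ 3) ≤ s / W ^ 3 / 2 := by
          have e2 : T * (s / (W * T) ^ 3) = s / W ^ 3 / T ^ 2 := by
            field_simp
          rw [e2]
          have : 2 ≤ T ^ 2 := by nlinarith
          gcongr
        have e4 : T * (W * δ) ≤ s / W ^ 3 / 2 := by
          rw [div_div, le_div_iff₀ (by positivity)]
          have h7 : T * (W * δ) * (W ^ 3 * 2) = 2 * (W ^ 4 * T * δ) := by ring
          rw [h7]
          have h8 : W ^ 4 * T * δ ≤ (W * T) ^ 4 * δ := by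
            have h9 : W ^ 4 * T ≤ (W * T) ^ 4 := by
              rw [mul_pow]
              have : T ≤ T ^ 4 := le_self_pow₀ (by linarith) (by norm_num)
              gcongr
            exact mul_le_mul_of_nonneg_right h9 hδ
          linarith
        calc T * (s / (W * T) ^ 3 + W * δ) = T * (s / (W * T) ^ 3) + T * (W * δ) := by ring
          _ ≤ s / W ^ 3 / 2 + s / W ^ 3 / 2 := add_le_add e3 e4
          _ = s / W ^ 3 := by ring)
    rw [h.mul]
    have e5 : W * T * δ = (2 * C (k + 1)) ^ q k * (W * δ) := by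
      rw [← hL, ← hT]
      ring
    rw [e5]
    exact h3

/-- **Closeness of the critical orbits, for several periods at every level.** -/
theorem Chain.main (hd : 2 ≤ d) (hc : ∀ n, ‖P d n c‖ ≤ 2) (h : Chain d c C p q r) :
    ∃ κ : ℝ, 0 < κ ∧ κ ≤ 1 / 2 ∧ ∀ (K i : ℕ) (a : ℂ),
      ‖a - c‖ ≤ κ / (Wt C q K ^ 4 * (2 * C K) ^ i) →
        ∀ n ≤ p K * i, ‖P d n a - P d n c‖ ≤ 1 / 2 := by
  obtain ⟨M, hM, hlip⟩ := lip_base d 4 (p 0)
  have hM0 : 0 < M := by linarith
  have hr0 := (h.lev 0).pos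
  obtain ⟨s, hs⟩ : ∃ s, s = min (1 / (2 * M)) (r 0 / 2) := ⟨_, rfl⟩
  have hs0 : 0 < s := by
    rw [hs]
    exact lt_min (by positivity) (by linarith)
  have hs1 : s ≤ r 0 / 2 := by rw [hs]; exact min_le_right _ _
  have hs2 : s ≤ 1 / (2 * M) := by rw [hs]; exact min_le_left _ _
  have hs3 : s ≤ 1 / 2 := by
    refine hs2.trans ?_
    apply one_div_le_one_div_of_le <;> linarith
  refine ⟨s / (2 * M), by positivity, ?_, ?_⟩
  · rw [div_le_iff₀ (by positivity)]
    nlinarith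
  intro K i a ha n hn
  have hC2 := h.C_le K
  have hW := h.Wt_one K
  obtain ⟨W, hW'⟩ : ∃ W, W = Wt C q K := ⟨_, rfl⟩
  obtain ⟨L, hL⟩ : ∃ L, L = 2 * C K := ⟨_, rfl⟩
  rw [← hW', ← hL] at ha
  rw [← hW'] at hW
  have hW0 : 0 < W := by linarith
  have hL4 : 4 ≤ L := by linarith
  have hL0 : 0 < L := by linarith
  have hLi : 1 ≤ L ^ i := one_le_pow₀ (by linarith)
  have hW4 : 1 ≤ W ^ 4 := one_le_pow₀ hW
  have hac : ‖a - c‖ ≤ s / (2 * M) := by
    refine ha.trans ?_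
    apply div_le_self (by positivity)
    nlinarith
  have hac2 : ‖a - c‖ ≤ 1 / (2 * M) := by
    refine hac.trans ?_
    gcongr
    linarith
  have hac3 : ‖a - c‖ ≤ 1 / 2 := by
    refine hac2.trans ?_
    apply one_div_le_one_div_of_le <;> linarith
  have hc2 : ‖c‖ ≤ 2 := by
    have := hc 1
    rwa [Pool.Agent.H712R2.P_one hd] at this
  have ha3 : ‖a‖ ≤ 4 := by
    have := norm_add_le (a - c) c
    rw [sub_add_cancel] at this
    linarith
  obtain ⟨δ, hδ⟩ : ∃ δ, δ = M * ‖a - c‖ := ⟨_, rfl⟩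
  have hδ0 : 0 ≤ δ := by rw [hδ]; positivity
  have hδK : W ^ 4 * L ^ i * δ ≤ s / 2 := by
    have h1 : W ^ 4 * L ^ i * ‖a - c‖ ≤ s / (2 * M) := by
      rwa [le_div_iff₀ (by positivity), mul_comm] at ha
    calc W ^ 4 * L ^ i * δ = M * (W ^ 4 * L ^ i * ‖a - c‖) := by rw [hδ]; ring
      _ ≤ M * (s / (2 * M)) := by gcongr
      _ = s / 2 := by field_simp
  have hbase : Cl d c a (p 0) s δ := by
    intro i z hz
    have hP := hc (p 0 * i)
    have hz4 : ‖z‖ ≤ 4 := by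
      have := norm_add_le (z - P d (p 0 * i) c) (P d (p 0 * i) c)
      rw [sub_add_cancel] at this
      linarith
    refine ⟨?_, ?_⟩
    · have h1 := hlip (p 0) le_rfl (a, z) (c, z) (by rw [Prod.norm_mk]; exact max_le ha3 hz4)
        (by rw [Prod.norm_mk]; exact max_le (by linarith) hz4)
      rw [Prod.mk_sub_mk, sub_self, Prod.norm_mk, norm_zero, max_eq_left (norm_nonneg _)] at h1
      rwa [hδ]
    · intro n hn
      have h1 := hlip n hn.le (a, z) (c, P d (p 0 * i) c)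
        (by rw [Prod.norm_mk]; exact max_le ha3 hz4)
        (by rw [Prod.norm_mk]; exact max_le (by linarith) (by linarith))
      rw [Prod.mk_sub_mk, Prod.norm_mk] at h1
      have h2 : (fc d c)^[n] (P d (p 0 * i) c) = P d (p 0 * i + n) c := by
        show (fc d c)^[n] ((fc d c)^[p 0 * i] 0) = (fc d c)^[p 0 * i + n] 0
        rw [← Function.iterate_add_apply, Nat.add_comm]
      simp only at h1
      rw [h2] at h1
      refine h1.trans ?_
      have h3 : max ‖a - c‖ ‖z - P d (p 0 * i) c‖ ≤ 1 / (2 * M) := max_le hac2 (hz.trans hs2)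
      calc M * max ‖a - c‖ ‖z - P d (p 0 * i) c‖ ≤ M * (1 / (2 * M)) := by gcongr
        _ = 1 / 2 := by field_simp
  have hKK : W ^ 4 * δ ≤ s / 2 := by
    refine le_trans ?_ hδK
    have : W ^ 4 ≤ W ^ 4 * L ^ i := by nlinarith
    exact mul_le_mul_of_nonneg_right this hδ0
  have h1 := h.close hd hs1 hs0 hδ0 hbase (K := K) (by rw [← hW']; exact hKK) K le_rfl
  have h2 := h.size hd hs1 hs0 K
  rw [← hW'] at h1 h2
  have h3 := h1.iter (i := 0) (j := i) (z := 0) (t := 0) (h.lev K) h2 le_rfl (by positivity)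
    (by simp [P_zero]) (by
      rw [← hL, zero_add, le_div_iff₀ (by positivity)]
      have e1 : L ^ i * (W * δ) * W ^ 3 = W ^ 4 * L ^ i * δ := by ring
      rw [e1]
      linarith)
  obtain ⟨l, m, hm, rfl⟩ : ∃ l m, m < p K ∧ n = p K * l + m :=
    ⟨n / p K, n % p K, Nat.mod_lt _ (h.one_le K), (Nat.div_add_mod n (p K)).symm⟩
  have hl : l ≤ i := by
    by_contra hcon
    push Not at hcon
    have h5 : p K * (i + 1) ≤ p K * l := Nat.mul_le_mul_left (p K) hcon
    have h6 := h.one_le K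
    rw [Nat.mul_add, Nat.mul_one] at h5
    omega
  have h4 := (h1 l _ (by have := (h3 l hl).2.2; rwa [Nat.zero_add] at this)).2 m hm
  have h5 : (fc d a)^[m] ((fc d a)^[p K * l] 0) = P d (p K * l + m) a := by
    show (fc d a)^[m] ((fc d a)^[p K * l] 0) = (fc d a)^[p K * l + m] 0
    rw [← Function.iterate_add_apply, Nat.add_comm]
  rwa [h5] at h4

end Pool.Agent.Q72.MR
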