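import Pool.Agent.Y736.HG4
import Pool.Agent.Y736.RN.A
import Pool.Agent.H713R2.Ext3
import Pool.Agent.W677.MB4

set_option autoImplicit false

/-! # Renormalizable parameters: the escape rate (after `Pool.Agent.Y736.RN.G`) -/

namespace Pool.Agent.Q72.MR

open Complex Filter Topology Set Metric MeasureTheory Pool.Agent.H713R2
open N62a1eb23
open Pool.Agent.H712R2 (P P_succ P_one P_zero fc continuous_P)

variable {d : ℕ} {ψ : ℂ → ℂ}

/-- upper bound of the escape rate when the orbit stays bounded for a long time -/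
theorem green_lower_R (hd : 2 ≤ d) (hψ : IsExteriorMap (multibrotSet d) ψ) {z : ℂ} (hz : 1 < ‖z‖)
    {n : ℕ} {R : ℝ} (hR : 2 ≤ R) (h1 : ‖ψ z‖ ≤ R) (h2 : ‖P d (n + 1) (ψ z)‖ ≤ R) :
    ‖z‖ ^ (d ^ n) ≤ R + 1 := by
  obtain ⟨β, hβ⟩ := exists_beta (d := d) hd
  rw [exteriorMap_unique hβ hψ hz] at h1 h2
  obtain ⟨hx, hx0⟩ := inv_mem_ball hz
  obtain ⟨c, hc⟩ : ∃ c, c = z * β z⁻¹ := ⟨_, rfl⟩
  rw [← hc] at h1 h2
  have hgrow : ∀ j, ‖P d (n + 1 + j) c‖ ≤ (R + 1) ^ (d ^ j) - 1 := up_growth hd hR h1 h2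
  obtain ⟨κ, hκ⟩ : ∃ κ, κ = Real.exp (-(2 * Real.log 2 * ‖z⁻¹‖ / (1 - ‖z⁻¹‖))) := ⟨_, rfl⟩
  have hκ0 : 0 < κ := by rw [hκ]; exact Real.exp_pos _
  by_contra hcon
  push Not at hcon
  have hzpos : 0 < ‖z‖ := by linarith
  have key : ∀ j, κ ≤ ((R + 1) / ‖z‖ ^ (d ^ n)) ^ (d ^ j) := by
    intro j
    have h3 := Pool.Agent.W677.MB.BB_lower hd hβ (n + j) hx
    rw [← hκ, BB_eq hd β (n + j) z⁻¹ hx0, inv_inv, ← hc, norm_mul, norm_pow, norm_inv] at h3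
    have h4 := hgrow j
    rw [show n + 1 + j = n + j + 1 by ring] at h4
    have h5 : ‖z‖⁻¹ ^ d ^ (n + j) * ‖P d (n + j + 1) c‖ ≤
        ‖z‖⁻¹ ^ d ^ (n + j) * (R + 1) ^ (d ^ j) :=
      mul_le_mul_of_nonneg_left (by linarith) (by positivity)
    refine h3.trans (h5.trans (le_of_eq ?_))
    rw [div_pow, ← pow_mul, ← pow_add, inv_pow]
    field_simp
  have hlt : (R + 1) / ‖z‖ ^ (d ^ n) < 1 := by
    rw [div_lt_one (by positivity)]
    exact hcon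
  have hlim : Tendsto (fun j : ℕ => ((R + 1) / ‖z‖ ^ (d ^ n)) ^ (d ^ j)) atTop (𝓝 0) :=
    (tendsto_pow_atTop_nhds_zero_of_lt_one (by positivity) hlt).comp
      (tendsto_pow_atTop_atTop_of_one_lt (by omega : 1 < d))
  have := ge_of_tendsto' hlim key
  linarith

/-- a renormalizable parameter lies in the connectedness locus -/
theorem ren_mem {p : ℕ} (hp : 1 ≤ p) {c : ℂ} {U : Set ℂ} (hUb : Bornology.IsBounded U)
    (hU : ∀ n : ℕ, 1 ≤ n → P d (n * p) c ∈ U) : c ∈ multibrotSet d := by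
  intro ht
  have h1 : Tendsto (fun n : ℕ => (n + 1) * p) atTop atTop := by
    refine tendsto_atTop_mono (fun n => ?_) (tendsto_id (α := ℕ))
    show n ≤ (n + 1) * p
    nlinarith
  have h2 := ht.comp h1
  have h3 : ∀ᶠ z in Bornology.cobounded ℂ, z ∉ U := hUb
  obtain ⟨n, hn⟩ := (h2.eventually h3).exists
  exact hn (hU (n + 1) (by omega))

end Pool.Agent.Q72.MR
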