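import Pool.Agent.Q72.MR.B
import Pool.Agent.Q72.MR.G

set_option autoImplicit false

/-! # Renormalizable parameters: Green's function, harmonic measure, derivatives, the loop -/

namespace Pool.Agent.Q72.MR

open Complex Filter Topology Set Metric MeasureTheory Pool.Agent.H713R2
open N62a1eb23
open Pool.Agent.H712R2 (P P_succ P_one P_zero fc mem_multibrot_iff)
open Pool.Agent.Y736.RN (diff_it_y diff_it_c contDiff_it)
open Pool.Agent.Y736.HD (Ang vol_Ang_ne)

variable {d : ℕ} {c : ℂ} {ψ : ℂ → ℂ} {C : ℕ → ℝ} {p q : ℕ → ℕ} {r : ℕ → ℝ}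

/-- **Green's function, harmonic measure and derivatives at all levels.** -/
theorem Chain.bounds (hd : 2 ≤ d) (hψ : IsExteriorMap (multibrotSet d) ψ) (hc : c ∈ multibrotSet d)
    (h : Chain d c C p q r) : ∃ κ : ℝ, 0 < κ ∧ ∀ K i : ℕ, 1 ≤ i →
      (∀ w : ℂ, 1 < ‖w‖ → ‖ψ w - c‖ ≤ κ / (Wt C q K ^ 4 * (2 * C K) ^ i) →
        Real.log ‖w‖ ≤ 2 * d / (d : ℝ) ^ (p K * i)) ∧
      (volume (Ang ψ c (κ / (Wt C q K ^ 4 * (2 * C K) ^ i)))).toReal ≤
        4 * Real.pi * d / (d : ℝ) ^ (p K * i) ∧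
      ∀ n ≤ p K * i, ‖deriv (P d n) c‖ ≤ Wt C q K ^ 4 * (2 * C K) ^ i / κ := by
  have hc2 : ∀ n, ‖P d n c‖ ≤ 2 := (mem_multibrot_iff hd c).1 hc
  obtain ⟨κ, hκ0, hκ1, hκ⟩ := h.main hd hc2
  have hdR : (2 : ℝ) ≤ d := by exact_mod_cast hd
  have hd0 : (0 : ℝ) < d := by linarith
  have hpi := Real.pi_pos
  have hlog2 : 0 < Real.log 2 := Real.log_pos (by norm_num)
  have hlog4 : Real.log 4 = 2 * Real.log 2 := by
    rw [show (4 : ℝ) = 2 ^ 2 by norm_num, Real.log_pow]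
    push_cast
    ring
  have hlog1 : Real.log 2 ≤ 1 := by
    have := Real.log_two_lt_d9
    linarith
  refine ⟨κ / 2, by positivity, ?_⟩
  intro K i hi
  have hκKi := hκ K i
  obtain ⟨T, hT⟩ : ∃ T, T = Wt C q K ^ 4 * (2 * C K) ^ i := ⟨_, rfl⟩
  rw [← hT] at hκKi ⊢
  have hC2 := h.C_le K
  have hT1 : 1 ≤ T := by
    rw [hT]
    have h1 : 1 ≤ Wt C q K ^ 4 := one_le_pow₀ (h.Wt_one K)
    have h2 : 1 ≤ (2 * C K) ^ i := one_le_pow₀ (by linarith)
    nlinarith
  have hT0 : 0 < T := by linarith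
  obtain ⟨m, hm⟩ : ∃ m, p K * i = m + 1 := ⟨p K * i - 1, by
    have : 1 ≤ p K * i := Nat.mul_pos (h.one_le K) hi
    omega⟩
  rw [hm] at hκKi ⊢
  have hκT : κ / T ≤ 1 := by
    rw [div_le_one hT0]
    linarith
  -- Green's function
  have hgreen : ∀ w : ℂ, 1 < ‖w‖ → ‖ψ w - c‖ ≤ κ / T →
      Real.log ‖w‖ ≤ d * (2 * Real.log 2) / (d : ℝ) ^ (m + 1) := by
    intro w hw hwc
    have h1 := hκKi (ψ w) hwc (m + 1) le_rfl
    have h2 : ‖ψ w‖ ≤ 3 := by
      have h3 := norm_add_le (ψ w - c) c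
      rw [sub_add_cancel] at h3
      have h4 := hc2 1
      rw [P_one hd] at h4
      linarith
    have h3 : ‖P d (m + 1) (ψ w)‖ ≤ 3 := by
      have h3 := norm_add_le (P d (m + 1) (ψ w) - P d (m + 1) c) (P d (m + 1) c)
      rw [sub_add_cancel] at h3
      have h4 := hc2 (m + 1)
      linarith
    have h4 := green_lower_R hd hψ hw (by norm_num) h2 h3
    have h5 := Real.log_le_log (by positivity) h4
    rw [Real.log_pow, show (3 : ℝ) + 1 = 4 by norm_num, hlog4] at h5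
    push_cast at h5
    rw [le_div_iff₀ (by positivity), pow_succ]
    calc Real.log ‖w‖ * ((d : ℝ) ^ m * d) = ((d : ℝ) ^ m * Real.log ‖w‖) * d := by ring
      _ ≤ (2 * Real.log 2) * d := by gcongr
      _ = d * (2 * Real.log 2) := by ring
  have hhalf : κ / 2 / T ≤ κ / T := by
    gcongr
    linarith
  refine ⟨?_, ?_, ?_⟩
  · intro w hw hwc
    refine (hgreen w hw (hwc.trans hhalf)).trans ?_
    gcongr ?_ / _
    nlinarith
  · have h1 := Pool.Agent.Y736.HG.vol_le hd hψ hc (r := κ / 2 / T) (by positivity)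
      (S := d * (2 * Real.log 2) / (d : ℝ) ^ (m + 1)) (by positivity) (by
        intro w hw hwc
        apply hgreen w hw
        refine hwc.trans (le_of_eq ?_)
        field_simp)
    refine h1.trans (le_of_eq ?_)
    field_simp
    ring
  · intro n hn
    have h1 : MapsTo (P d n) (ball c (κ / T)) (closedBall (P d n c) (1 / 2)) := by
      intro a ha
      rw [mem_ball, dist_eq_norm] at ha
      rw [mem_closedBall, dist_eq_norm]
      exact hκKi a ha.le n hn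
    have h2 : Differentiable ℂ (P d n) := diff_it_c d n 0
    have h3 := Complex.norm_deriv_le_div_of_mapsTo_ball h2.differentiableOn h1 (by positivity)
    refine h3.trans ?_
    rw [div_div_eq_mul_div, div_div_eq_mul_div]
    gcongr ?_ / _
    linarith

/-- **The loop.** If few rays land near `c`, the loop moves away from `c` quickly. -/
theorem loop_of_vol {ρ δ : ℝ} (hδ0 : 0 < δ) (hδπ : δ ≤ Real.pi)
    (hvol : (volume (Ang ψ c ρ)).toReal < δ)
    {F : ℂ → ℂ} (hF : ContinuousOn F {w | 1 ≤ ‖w‖}) (hE : ∀ w, 1 < ‖w‖ → F w = ψ w) {ζ : ℂ}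
    (hζ : ‖ζ‖ = 1) (hFζ : F ζ = c) :
    ∃ ξ : ℂ, ‖ξ‖ = 1 ∧ ‖ξ - ζ‖ ≤ δ ∧ ρ ≤ ‖F ξ - F ζ‖ := by
  have hpi := Real.pi_pos
  -- the angle of `ζ`
  obtain ⟨θ₀, hθ₀, hθζ⟩ : ∃ θ₀ : ℝ, θ₀ ∈ Ioc 0 (2 * Real.pi) ∧ exp (θ₀ * I) = ζ := by
    have h1 : exp ((arg ζ : ℝ) * I) = ζ := by
      have := Complex.norm_mul_exp_arg_mul_I ζ
      rwa [hζ, ofReal_one, one_mul] at this
    rcases le_or_gt (arg ζ) 0 with h2 | h2
    · refine ⟨arg ζ + 2 * Real.pi, ⟨?_, by linarith⟩, ?_⟩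
      · have := Complex.neg_pi_lt_arg ζ
        linarith
      · push_cast
        rw [add_mul, Complex.exp_add, Complex.exp_two_pi_mul_I, mul_one]
        exact h1
    · exact ⟨arg ζ, ⟨h2, by linarith [Complex.arg_le_pi ζ]⟩, h1⟩
  -- an interval of angles
  obtain ⟨a, b, hab, ha0, hb0, ha, hb⟩ : ∃ a b : ℝ, b - a = δ ∧ 0 ≤ a ∧ b ≤ 2 * Real.pi ∧
      θ₀ - δ ≤ a ∧ b ≤ θ₀ + δ := by
    rcases le_or_gt Real.pi θ₀ with h1 | h1
    · exact ⟨θ₀ - δ, θ₀, by ring, by linarith, hθ₀.2, le_rfl, by linarith⟩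
    · exact ⟨θ₀, θ₀ + δ, by ring, hθ₀.1.le, by linarith, by linarith, le_rfl⟩
  by_contra hcon
  push Not at hcon
  have hsub : Ioc a b ⊆ Ang ψ c ρ := by
    intro θ hθ
    refine ⟨⟨by linarith [hθ.1], hθ.2.trans hb0⟩, F (exp (θ * I)), ?_, ?_⟩
    · rw [mem_ball, dist_eq_norm, ← hFζ]
      apply hcon
      · exact Complex.norm_exp_ofReal_mul_I θ
      · rw [← hθζ]
        have h1 : exp (θ * I) - exp (θ₀ * I) = exp (θ₀ * I) * (exp (I * ((θ - θ₀ : ℝ) : ℂ)) - 1) := by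
          rw [mul_sub, ← Complex.exp_add, mul_one]
          congr 2
          push_cast
          ring
        rw [h1, norm_mul, Complex.norm_exp_ofReal_mul_I, one_mul]
        refine (Real.norm_exp_I_mul_ofReal_sub_one_le).trans ?_
        rw [Real.norm_eq_abs, abs_le]
        constructor <;> linarith [hθ.1, hθ.2]
    · have h1 : ContinuousWithinAt F {w | 1 ≤ ‖w‖} (exp (θ * I)) :=
        hF _ (by
          show 1 ≤ ‖exp (θ * I)‖
          rw [Complex.norm_exp_ofReal_mul_I])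
      have h2 : Tendsto (fun ρ : ℝ => (ρ : ℂ) * exp (θ * I)) (𝓝[>] 1)
          (𝓝[{w | 1 ≤ ‖w‖}] (exp (θ * I))) := by
        rw [tendsto_nhdsWithin_iff]
        refine ⟨?_, ?_⟩
        · have h3 : Continuous fun ρ : ℝ => (ρ : ℂ) * exp (θ * I) := by fun_prop
          have h4 := (h3.tendsto 1).mono_left (nhdsWithin_le_nhds (s := Ioi (1 : ℝ)))
          simpa using h4
        · filter_upwards [self_mem_nhdsWithin] with ρ hρ
          have hρ' : 1 < ρ := hρ
          show 1 ≤ ‖(ρ : ℂ) * exp (θ * I)‖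
          rw [norm_mul, Complex.norm_exp_ofReal_mul_I, mul_one, Complex.norm_real,
            Real.norm_of_nonneg (by linarith)]
          exact hρ'.le
      refine (h1.tendsto.comp h2).congr' ?_
      filter_upwards [self_mem_nhdsWithin] with ρ hρ
      have hρ' : 1 < ρ := hρ
      apply hE
      rw [norm_mul, Complex.norm_exp_ofReal_mul_I, mul_one, Complex.norm_real,
        Real.norm_of_nonneg (by linarith)]
      exact hρ'
  have h2 := ENNReal.toReal_mono (vol_Ang_ne ψ c ρ) (measure_mono hsub)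
  rw [Real.volume_Ioc, ENNReal.toReal_ofReal (by linarith)] at h2
  linarith

end Pool.Agent.Q72.MR
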