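import Pool.Agent.Q72.MR.B

set_option autoImplicit false

/-! # Renormalizable parameters: chains of bounded type -/

namespace Pool.Agent.Q72.MR

open Filter Topology Set

variable {d : ℕ} {c : ℂ} {C : ℕ → ℝ} {p q : ℕ → ℕ} {r : ℕ → ℝ} {τ : ℝ}

theorem log_q_pos {n : ℕ} (hn : 2 ≤ n) : 0 < Real.log n :=
  Real.log_pos (by exact_mod_cast (by omega : 1 < n))

theorem tau_pos {n : ℕ} (hn : 2 ≤ n) (h : (n : ℝ) ≤ τ * Real.log n) : 0 < τ := by
  have h1 := log_q_pos hn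
  have h2 : (2 : ℝ) ≤ n := by exact_mod_cast hn
  by_contra hcon
  push Not at hcon
  nlinarith

theorem q_le {n : ℕ} (hn : 2 ≤ n) (h : (n : ℝ) ≤ τ * Real.log n) : (n : ℝ) ≤ 4 * τ ^ 2 := by
  have hτ := tau_pos hn h
  have h2 : (2 : ℝ) ≤ n := by exact_mod_cast hn
  obtain ⟨x, hx⟩ : ∃ x, x = Real.sqrt n := ⟨_, rfl⟩
  have hx0 : 0 < x := by rw [hx]; exact Real.sqrt_pos.2 (by linarith)
  have hxn : x ^ 2 = n := by rw [hx]; exact Real.sq_sqrt (by linarith)
  have h3 : Real.log n ≤ 2 * x := by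
    rw [← hxn, Real.log_pow]
    push_cast
    have := Real.log_le_sub_one_of_pos hx0
    linarith
  rw [← hxn] at h ⊢
  rw [hxn] at h
  have h4 : x ^ 2 ≤ τ * (2 * x) := by
    rw [hxn]
    rw [← hxn] at h
    rw [hxn] at h
    exact h.trans (by gcongr)
  have h5 : x ≤ 2 * τ := by
    by_contra hcon
    push Not at hcon
    nlinarith
  nlinarith

theorem Chain.sum_le (h : Chain d c C p q r) (hτ : ∀ k, (q k : ℝ) ≤ τ * Real.log (q k)) (K : ℕ) :
    (Sm q K : ℝ) ≤ τ * Real.log (p K) := by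
  have hτ0 := tau_pos (h.two 0) (hτ 0)
  induction K with
  | zero =>
    have h1 : (1 : ℝ) ≤ p 0 := by exact_mod_cast h.pos
    have h2 := Real.log_nonneg h1
    simp only [Sm, Finset.range_zero, Finset.sum_empty, Nat.cast_zero]
    positivity
  | succ K ih =>
    rw [Sm_succ, h.mul]
    push_cast
    have h1 : (1 : ℝ) ≤ p K := by exact_mod_cast h.one_le K
    have h2 : (2 : ℝ) ≤ q K := by exact_mod_cast h.two K
    rw [Real.log_mul (by positivity) (by positivity), mul_add]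
    exact add_le_add ih (hτ K)

theorem Chain.lt_p (h : Chain d c C p q r) (K : ℕ) : K < p K := by
  induction K with
  | zero => exact h.pos
  | succ K ih =>
    rw [h.mul]
    have h2 := h.two K
    nlinarith

theorem Chain.le_sm (h : Chain d c C p q r) (K : ℕ) : K ≤ Sm q K := by
  induction K with
  | zero => exact Nat.zero_le _
  | succ K ih =>
    rw [Sm_succ]
    have h2 := h.two K
    omega

/-- a level for every time -/
theorem Chain.exists_level (h : Chain d c C p q r) {b : ℝ} (hb : ∀ k, (q k : ℝ) ≤ b) {n : ℕ}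
    (hn : 1 ≤ n) : ∃ K, n ≤ p K ∧ (p K : ℝ) ≤ (p 0 + b) * n := by
  have hex : ∃ K, n ≤ p K := ⟨n, (h.lt_p n).le⟩
  have hb0 : 0 ≤ b := le_trans (by positivity) (hb 0)
  have hn1 : (1 : ℝ) ≤ n := by exact_mod_cast hn
  have hp0 : (0 : ℝ) ≤ p 0 := by positivity
  classical
  refine ⟨Nat.find hex, Nat.find_spec hex, ?_⟩
  rcases Nat.eq_zero_or_pos (Nat.find hex) with h0 | h0
  · rw [h0]
    nlinarith [mul_nonneg hb0 (by linarith : (0 : ℝ) ≤ n)]
  · obtain ⟨k, hk⟩ : ∃ k, Nat.find hex = k + 1 := ⟨Nat.find hex - 1, by omega⟩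
    have h1 : ¬ n ≤ p k := Nat.find_min hex (by omega)
    rw [hk, h.mul]
    push_cast
    have h2 : (p k : ℝ) ≤ n := by exact_mod_cast (not_le.1 h1).le
    have h3 : (p k : ℝ) * q k ≤ n * b := mul_le_mul h2 (hb k) (by positivity) (by positivity)
    nlinarith [mul_nonneg hp0 (by linarith : (0 : ℝ) ≤ n)]

/-- a level for every scale -/
theorem Chain.exists_scale (h : Chain d c C p q r) {L κ ρ : ℝ} (hL : 2 ≤ L) (hκ : 0 < κ) (hρ : 0 < ρ)
    (hρκ : ρ ≤ κ / L) :
    ∃ k, ρ ≤ κ / L ^ (4 * Sm q k + 1) ∧ κ / L ^ (4 * Sm q (k + 1) + 1) < ρ := by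
  have hex : ∃ K, κ / L ^ (4 * Sm q K + 1) < ρ := by
    obtain ⟨n, hn⟩ := pow_unbounded_of_one_lt (κ / ρ) (by linarith : 1 < L)
    refine ⟨n, ?_⟩
    rw [div_lt_iff₀ hρ] at hn
    rw [div_lt_iff₀ (by positivity)]
    refine hn.trans_le ?_
    rw [mul_comm]
    have h1 := h.le_sm n
    have : L ^ n ≤ L ^ (4 * Sm q n + 1) := pow_le_pow_right₀ (by linarith) (by omega)
    gcongr
  classical
  have h0 : Nat.find hex ≠ 0 := by
    intro h0
    have h1 := Nat.find_spec hex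
    rw [h0] at h1
    simp only [Sm, Finset.range_zero, Finset.sum_empty, Nat.mul_zero, Nat.zero_add, pow_one] at h1
    linarith
  obtain ⟨k, hk⟩ : ∃ k, Nat.find hex = k + 1 := ⟨Nat.find hex - 1, by omega⟩
  have h1 : ¬ κ / L ^ (4 * Sm q k + 1) < ρ := Nat.find_min hex (by omega)
  have h2 := Nat.find_spec hex
  rw [hk] at h2
  exact ⟨k, not_lt.1 h1, h2⟩

/-- the period of the level of a scale -/
theorem Chain.period_ge (h : Chain d c C p q r) (hτ : ∀ k, (q k : ℝ) ≤ τ * Real.log (q k))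
    {L κ ρ : ℝ} (hL : 2 ≤ L) (hκ : 0 < κ) (hρ : 0 < ρ) {k : ℕ}
    (hk : κ / L ^ (4 * Sm q (k + 1) + 1) < ρ) :
    Real.exp ((Real.log κ - (16 * τ ^ 2 + 1) * Real.log L) / (4 * τ * Real.log L)) *
      ρ ^ (-(1 / (4 * τ * Real.log L))) ≤ p k := by
  have hτ0 := tau_pos (h.two 0) (hτ 0)
  have hlogL : 0 < Real.log L := Real.log_pos (by linarith)
  have hpk : (0 : ℝ) < p k := by exact_mod_cast h.one_le k
  have h1 : Real.log κ - Real.log ρ ≤ (4 * Sm q (k + 1) + 1) * Real.log L := by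
    rw [div_lt_iff₀ (by positivity)] at hk
    have h2 := Real.log_le_log hκ hk.le
    rw [Real.log_mul hρ.ne' (by positivity), Real.log_pow] at h2
    push_cast at h2
    linarith
  rw [Sm_succ] at h1
  push_cast at h1
  have h2 := h.sum_le hτ k
  have h3 := q_le (h.two k) (hτ k)
  have h4 : (4 * ((Sm q k : ℝ) + q k) + 1) * Real.log L ≤
      (4 * (τ * Real.log (p k) + 4 * τ ^ 2) + 1) * Real.log L := by gcongr
  rw [Real.rpow_def_of_pos hρ, ← Real.exp_add, ← Real.le_log_iff_exp_le hpk]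
  have h5 : (Real.log κ - (16 * τ ^ 2 + 1) * Real.log L) / (4 * τ * Real.log L) +
      Real.log ρ * -(1 / (4 * τ * Real.log L)) =
      (Real.log κ - (16 * τ ^ 2 + 1) * Real.log L - Real.log ρ) / (4 * τ * Real.log L) := by
    field_simp
    ring
  rw [h5, div_le_iff₀ (by positivity)]
  nlinarith

/-- absorbing a constant -/
theorem absorb {A η B : ℝ} (hA : 0 < A) (hη : 0 < η) (hB : 1 < B) : ∃ ρ₀ : ℝ, 0 < ρ₀ ∧
    ∀ ρ : ℝ, 0 < ρ → ρ < ρ₀ → B * Real.exp (-(2 * η * ρ ^ (-(1 / A)))) ≤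
      Real.exp (-(η * ρ ^ (-(1 / A)))) := by
  have hlogB := Real.log_pos hB
  refine ⟨(η / Real.log B) ^ A, by positivity, ?_⟩
  intro ρ hρ hρ0
  have h1 : ((η / Real.log B) ^ A) ^ (-(1 / A)) ≤ ρ ^ (-(1 / A)) :=
    Real.rpow_le_rpow_of_nonpos hρ hρ0.le (by
      rw [neg_nonpos]
      positivity)
  rw [← Real.rpow_mul (by positivity), show A * -(1 / A) = -1 by field_simp,
    Real.rpow_neg_one, inv_div] at h1
  rw [div_le_iff₀ hη] at h1
  have h2 : B = Real.exp (Real.log B) := (Real.exp_log (by linarith)).symm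
  rw [h2, ← Real.exp_add]
  apply Real.exp_le_exp.2
  linarith

end Pool.Agent.Q72.MR
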